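import Mathlib
import Pool.Agent.H434Z.HCCaro

set_option autoImplicit false
open Classical

namespace Pool.Agent.Results.MP_dc9350_co.ALocalDegrees

/-- The Caro Wei type bound for the hard-core model holds when all degrees are at most `Δ` and
`(Δ - 5) t ≤ 1`, and also when `f (deg w) ≤ f (deg u) + f (deg u')` on every induced path
`u - w - u'`, where `f d = t / (1 + (d + 1) t)`. -/
theorem result :
    ∀ (V : Type) [Fintype V] (G : SimpleGraph V) (t : ℝ), 0 < t →
      ((∃ Δ : ℕ, (∀ v, G.degree v ≤ Δ) ∧ ((Δ : ℝ) - 5) * t ≤ 1) ∨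
        ∀ w u u' : V, G.Adj w u → G.Adj w u' → u ≠ u' → ¬ G.Adj u u' →
          t / (1 + ((G.degree w : ℝ) + 1) * t) ≤
            t / (1 + ((G.degree u : ℝ) + 1) * t) + t / (1 + ((G.degree u' : ℝ) + 1) * t)) →
      (∑ v : V, t / (1 + ((G.degree v : ℝ) + 1) * t)) ≤
        (∑ I ∈ (Finset.univ : Finset (Finset V)).filter
              (fun I : Finset V => G.IsIndepSet (↑I : Set V)),
            ((Finset.card I : ℕ) : ℝ) * t ^ (Finset.card I)) /
        (∑ I ∈ (Finset.univ : Finset (Finset V)).filter
              (fun I : Finset V => G.IsIndepSet (↑I : Set V)),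
            t ^ (Finset.card I)) := by
  intro V _ G t ht h
  refine Pool.Agent.H434Z.HC.main G t ht ?_
  rcases h with ⟨Δ, h1, h2⟩ | h
  · exact Pool.Agent.H434Z.HC.local_of_deg G t ht Δ h1 h2
  · intro w u u' a b c d
    have := h w u u' a b c d
    refine le_of_mul_le_mul_left ?_ ht
    simpa [mul_add, div_eq_mul_inv] using this

end Pool.Agent.Results.MP_dc9350_co.ALocalDegrees
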